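import Pool.Agent.Y817.WK.Fin
import Pool.Agent.Y246.WK.Arith
import Pool.Agent.Y171.WK.Derive
import Pool.Agent.Y986.WK.Pde
import Pool.Agent.Y986.WK.Tri

/-!
# MP_f5ceca_al: the word problem is undecidable in every variety of associative algebras above `W_K`

The definitions (`evalPoly`, `InVar`, `InW`, `ContainsW`, `ZeroIn`, `DecidableWP`) are in
`Pool/Agent/Y817/WK/Defs.lean`.
-/

set_option autoImplicit false

namespace Pool.Agent.Results.MP_f5ceca_al.UndecidableAboveW

open Pool.Agent.Y817.WK

/-- There are a natural number `k` and a finite set `R` of noncommutative polynomials with integral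
coefficients in `k` letters such that, for every field `K` of characteristic zero, every coding `ν` of
the elements of `K` by natural numbers and every variety of associative `K`-algebras (given by a set
`Id` of identities) which contains `W_K`, the word problem of the algebra presented by `R` in this
variety is undecidable. -/
theorem result :
    ∃ (k : ℕ) (R : List (List (ℤ × Fin k × List (Fin k)))),
      ∀ (K : Type) [Field K] [CharZero K] (ν : ℕ → K), Function.Surjective ν →
        ∀ Id : Set (List (K × ℕ × List ℕ)), ContainsW K Id →
          ¬ DecidableWP ν Id (R.map fun r => r.map fun t => ((t.1 : K), t.2)) :=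
  main Pool.Agent.Y246.WK.t Pool.Agent.Y171.WK.t
    (model Pool.Agent.Y986.WK.Tri.t Pool.Agent.Y986.WK.t)

end Pool.Agent.Results.MP_f5ceca_al.UndecidableAboveW
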